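import Pool.Agent.Y862.LinStat

set_option autoImplicit false

/-!
# The Poisson law for almost prime bi-twin chains

A bi-twin chain of length `k` starting at `6 m` consists of a Cunningham chain of the first kind
`6 m - 1, 12 m - 1, ..., 2 ^ (k - 1) 6 m - 1` and one of the second kind
`6 m + 1, 12 m + 1, ..., 2 ^ (k - 1) 6 m + 1`, whose terms are pairs of twins.
Fix `k ≥ 1` and `θ, ε > 0`. For large `r` and large `X`, call `m` good if each of these `2 k` numbers has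
at most `r` prime factors, all larger than `X ^ (1 / r)`, and let `V` be the sieve density. Then in EVERY
interval `(X, X + Y]` with `X ^ θ ≤ Y ≤ X`, for every length `T` with `T V ≤ x0`, the number of good
integers in `(n, n + T]` has the Poisson distribution with mean `T V`, up to `ε`.
-/

namespace Pool.Agent.Results.MP_c183ae_nt.BiTwinChains

open Finset Filter

/-- each of the `2 k` numbers `2 ^ j * (6 m) - 1` and `2 ^ j * (6 m) + 1`, `j < k`, has at most `r` prime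
factors (with multiplicity), all larger than `X ^ (1 / r)` -/
def Good (k r X m : ℕ) : Prop :=
  ∀ j < k, ∀ c ∈ ({2 ^ j * (6 * m) - 1, 2 ^ j * (6 * m) + 1} : Finset ℕ),
    c.primeFactorsList.length ≤ r ∧ ∀ p : ℕ, p.Prime → p ∣ c → (X : ℝ) ^ (1 / (r : ℝ)) < (p : ℝ)

open Classical in
/-- the number of the good integers in `(u, v]` -/
noncomputable def N (k r X u v : ℕ) : ℕ := ((Finset.Ioc u v).filter (fun m => Good k r X m)).card

open Classical in
/-- the sieve density: the product of `1 - ν(p) / p` over the primes `p ≤ X ^ (1 / r)`, where `ν(p)` is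
the number of the `m` in `[1, p]` for which `p` divides one of the `2 k` numbers -/
noncomputable def V (k r X : ℕ) : ℝ :=
  ∏ p ∈ (Finset.range (⌊(X : ℝ) ^ (1 / (r : ℝ))⌋₊ + 1)).filter Nat.Prime,
    (1 - (((Finset.Ioc 0 p).filter (fun m : ℕ => ∃ j < k,
      p ∣ 2 ^ j * (6 * m) - 1 ∨ p ∣ 2 ^ j * (6 * m) + 1)).card : ℝ) / p)

/-- the number of the solutions modulo `p` may be counted in `[1, p]` -/
lemma card_shift (p : ℕ) (P : ℕ → Prop) [DecidablePred P] (hP : ∀ m, P (m + p) ↔ P m) :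
    ((Finset.Ioc 0 p).filter P).card = ((Finset.range p).filter P).card := by
  have hper : Function.Periodic P p := fun m => propext (hP m)
  have h1 := Nat.filter_Ico_card_eq_of_periodic 1 p P hper
  have h0 := Nat.filter_Ico_card_eq_of_periodic 0 p P hper
  have e1 : Finset.Ico 1 (1 + p) = Finset.Ioc 0 p := by
    ext m
    simp only [Finset.mem_Ico, Finset.mem_Ioc]
    omega
  have e0 : Finset.Ico 0 (0 + p) = Finset.range p := by
    rw [zero_add, Finset.range_eq_Ico]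
  rw [e1] at h1
  rw [e0] at h0
  rw [h1, h0]

/-- the sign -/
def sn (s : Bool) : ℤ := if s then 1 else -1

/-- **Almost prime bi-twin chains.** -/
theorem result (k : ℕ) (hk : 1 ≤ k) (θ : ℝ) (hθ : 0 < θ) (x0 ε : ℝ) (hε : 0 < ε) :
    ∃ r0 : ℕ, ∀ r : ℕ, r0 ≤ r → ∀ᶠ X : ℕ in atTop, ∀ Y : ℕ, (X : ℝ) ^ θ ≤ Y → Y ≤ X →
      ∀ T : ℕ, T * V k r X ≤ x0 → ∀ A : Finset ℕ,
        |(((Finset.Ioc X (X + Y)).filter (fun n => N k r X n (n + T) ∈ A)).card : ℝ) -
          Y * ∑ j ∈ A, Real.exp (-(T * V k r X)) * (T * V k r X) ^ j / j.factorial| ≤ ε * Y := by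
  classical
  have : Nonempty (Fin k × Bool) := ⟨(⟨0, by omega⟩, true)⟩
  have ha : ∀ i : Fin k × Bool, 0 < 2 ^ (i.1 : ℕ) * 6 := fun _ => by positivity
  have hsn : ∀ s : Bool, sn s * sn s = 1 := by
    intro s
    cases s <;> simp [sn]
  have hab : ∀ i : Fin k × Bool, IsCoprime ((2 ^ (i.1 : ℕ) * 6 : ℕ) : ℤ) (sn i.2) := fun i =>
    ⟨0, sn i.2, by rw [hsn]; ring⟩
  have hinj : ∀ i j : Fin k × Bool, 2 ^ (i.1 : ℕ) * 6 = 2 ^ (j.1 : ℕ) * 6 → sn i.2 = sn j.2 → i = j := by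
    rintro ⟨i, s⟩ ⟨j, t⟩ hij hst
    have h1 : 2 ^ (i : ℕ) = 2 ^ (j : ℕ) := Nat.eq_of_mul_eq_mul_right (by norm_num) hij
    have h2 : i = j := Fin.ext (Nat.pow_right_injective le_rfl h1)
    subst h2
    have h3 : s = t := by
      cases s <;> cases t <;> simp [sn] at hst ⊢
      all_goals omega
    rw [h3]
  have hadm : ∀ p : ℕ, p.Prime → ∃ m : ℕ, ∀ i : Fin k × Bool,
      ¬ (p : ℤ) ∣ ((2 ^ (i.1 : ℕ) * 6 : ℕ) : ℤ) * m + sn i.2 := by
    intro p hp
    refine ⟨0, fun i hd => ?_⟩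
    have h1 : (p : ℤ) ∣ sn i.2 := by simpa using hd
    have h2 : (p : ℤ) ∣ 1 := by
      rw [← hsn i.2]
      exact Dvd.dvd.mul_left h1 _
    have h3 : p ∣ 1 := by exact_mod_cast h2
    exact hp.one_lt.ne' (Nat.dvd_one.1 h3)
  have hT : ∀ i j : Fin k × Bool, ∀ t : ℕ, 1 ≤ t → ¬ (2 ^ (i.1 : ℕ) * 6 = 2 ^ (j.1 : ℕ) * 6 ∧
      sn i.2 = ((2 ^ (j.1 : ℕ) * 6 : ℕ) : ℤ) * t + sn j.2) := by
    rintro ⟨i, s⟩ ⟨j, u⟩ t ht ⟨_, h2⟩
    have h4 : (6 : ℤ) ≤ ((2 ^ (j : ℕ) * 6 : ℕ) : ℤ) * t := by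
      have h5 : 1 ≤ 2 ^ (j : ℕ) := Nat.one_le_two_pow
      have h6 : 6 ≤ 2 ^ (j : ℕ) * 6 * t := by
        calc 6 = 1 * 6 * 1 := by norm_num
          _ ≤ 2 ^ (j : ℕ) * 6 * t := Nat.mul_le_mul (Nat.mul_le_mul_right _ h5) ht
      exact_mod_cast h6
    cases s <;> cases u <;> simp only [sn] at h2 <;> simp at h2 <;> push_cast at h4 <;> linarith
  have hval : ∀ (j m : ℕ) (s : Bool), 1 ≤ m →
      (((2 ^ j * 6 : ℕ) : ℤ) * m + sn s).natAbs = if s then 2 ^ j * (6 * m) + 1 else 2 ^ j * (6 * m) - 1 := by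
    intro j m s hm
    have h1 : 1 ≤ 2 ^ j * (6 * m) := Nat.one_le_iff_ne_zero.2 (by positivity)
    cases s
    · have : (((2 ^ j * 6 : ℕ) : ℤ) * m + sn false) = ((2 ^ j * (6 * m) - 1 : ℕ) : ℤ) := by
        rw [Nat.cast_sub h1]
        simp [sn]
        ring
      rw [this, Int.natAbs_natCast]
      simp
    · have : (((2 ^ j * 6 : ℕ) : ℤ) * m + sn true) = ((2 ^ j * (6 * m) + 1 : ℕ) : ℤ) := by
        simp [sn]
        ring
      rw [this, Int.natAbs_natCast]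
      simp
  have hdvd : ∀ (j m p : ℕ) (s : Bool), 1 ≤ m →
      ((p : ℤ) ∣ ((2 ^ j * 6 : ℕ) : ℤ) * m + sn s ↔
        p ∣ (if s then 2 ^ j * (6 * m) + 1 else 2 ^ j * (6 * m) - 1)) := by
    intro j m p s hm
    rw [← hval j m s hm, Int.natCast_dvd]
  have hG : ∀ r X m : ℕ, 1 ≤ r → 1 ≤ m → (Good k r X m ↔
      Pool.Agent.Y862.LS.AP (fun i : Fin k × Bool => 2 ^ (i.1 : ℕ) * 6) (fun i => sn i.2) r X m) := by
    intro r X m _ hm
    constructor
    · rintro h ⟨i, s⟩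
      have hc : (if s then 2 ^ (i : ℕ) * (6 * m) + 1 else 2 ^ (i : ℕ) * (6 * m) - 1) ∈
          ({2 ^ (i : ℕ) * (6 * m) - 1, 2 ^ (i : ℕ) * (6 * m) + 1} : Finset ℕ) := by
        cases s <;> simp
      obtain ⟨h1, h2⟩ := h i i.2 _ hc
      refine ⟨?_, fun p hp hd => h2 p hp ?_⟩
      · show (((2 ^ (i : ℕ) * 6 : ℕ) : ℤ) * m + sn s).natAbs.primeFactorsList.length ≤ r
        rw [hval _ m s hm]
        exact h1
      · have hd' : (p : ℤ) ∣ ((2 ^ (i : ℕ) * 6 : ℕ) : ℤ) * m + sn s := hd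
        exact (hdvd _ m p s hm).1 hd'
    · intro h j hj c hc
      rw [Finset.mem_insert, Finset.mem_singleton] at hc
      have key : ∀ s : Bool, c = (if s then 2 ^ j * (6 * m) + 1 else 2 ^ j * (6 * m) - 1) →
          c.primeFactorsList.length ≤ r ∧
            ∀ p : ℕ, p.Prime → p ∣ c → (X : ℝ) ^ (1 / (r : ℝ)) < (p : ℝ) := by
        intro s hs
        obtain ⟨h1, h2⟩ := h (⟨j, hj⟩, s)
        have h1' : (((2 ^ j * 6 : ℕ) : ℤ) * m + sn s).natAbs.primeFactorsList.length ≤ r := h1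
        rw [hval _ m s hm, ← hs] at h1'
        refine ⟨h1', fun p hp hd => h2 p hp ?_⟩
        show (p : ℤ) ∣ ((2 ^ j * 6 : ℕ) : ℤ) * m + sn s
        exact (hdvd _ m p s hm).2 (by rw [← hs]; exact hd)
      rcases hc with hc | hc
      · exact key false (by simpa using hc)
      · exact key true (by simpa using hc)
  have hV : ∀ r X : ℕ, V k r X =
      ∏ p ∈ (Finset.range (⌊(X : ℝ) ^ (1 / (r : ℝ))⌋₊ + 1)).filter Nat.Prime,
      (1 - (((Finset.range p).filter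
        (fun m : ℕ => ∃ i : Fin k × Bool, (p : ℤ) ∣ ((2 ^ (i.1 : ℕ) * 6 : ℕ) : ℤ) * m + sn i.2)).card : ℝ)
          / p) := by
    intro r X
    unfold V
    apply Finset.prod_congr rfl
    intro p _
    have hshift := card_shift p
      (fun m : ℕ => ∃ i : Fin k × Bool, (p : ℤ) ∣ ((2 ^ (i.1 : ℕ) * 6 : ℕ) : ℤ) * m + sn i.2)
      (by
        intro m
        apply exists_congr
        intro i
        have : ((2 ^ (i.1 : ℕ) * 6 : ℕ) : ℤ) * ((m + p : ℕ) : ℤ) + sn i.2 =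
            (((2 ^ (i.1 : ℕ) * 6 : ℕ) : ℤ) * m + sn i.2) + ((2 ^ (i.1 : ℕ) * 6 : ℕ) : ℤ) * p := by
          push_cast
          ring
        rw [this]
        exact dvd_add_left (dvd_mul_left _ _))
    have hcongr : (Finset.Ioc 0 p).filter (fun m : ℕ => ∃ j < k,
        p ∣ 2 ^ j * (6 * m) - 1 ∨ p ∣ 2 ^ j * (6 * m) + 1) =
        (Finset.Ioc 0 p).filter (fun m : ℕ => ∃ i : Fin k × Bool,
          (p : ℤ) ∣ ((2 ^ (i.1 : ℕ) * 6 : ℕ) : ℤ) * m + sn i.2) := by
      apply Finset.filter_congr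
      intro m hm
      rw [Finset.mem_Ioc] at hm
      constructor
      · rintro ⟨j, hj, h | h⟩
        · exact ⟨(⟨j, hj⟩, false), (hdvd j m p false hm.1).2 (by simpa using h)⟩
        · exact ⟨(⟨j, hj⟩, true), (hdvd j m p true hm.1).2 (by simpa using h)⟩
      · rintro ⟨⟨i, s⟩, h⟩
        have h' := (hdvd i m p s hm.1).1 h
        refine ⟨i, i.2, ?_⟩
        cases s
        · left; simpa using h'
        · right; simpa using h'
    rw [hcongr, hshift]
  obtain ⟨r0, h0⟩ := Pool.Agent.Y862.LS.poisson_lin (ι := Fin k × Bool) (fun i => 2 ^ (i.1 : ℕ) * 6)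
    (fun i => sn i.2) ha hab hinj hadm hT (Good k) hG (V k)
    (by
      intro r X
      rw [hV])
    θ hθ x0 ε hε
  refine ⟨r0, fun r hr => ?_⟩
  filter_upwards [h0 r hr] with X hX
  intro Y hXY hYX T hTV A
  have h1 := hX Y hXY hYX T hTV A
  unfold N
  convert h1 using 6

end Pool.Agent.Results.MP_c183ae_nt.BiTwinChains
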