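import Pool.Agent.TH977.PW.Inst
import Pool.Agent.Y677.RSZ.FinEx

set_option autoImplicit false

/-!
# Narrow arithmetic progressions of starting points of Cunningham chains

The relative Szemeredi theorem for sets of arguments with rough values (`Pool.Agent.Y677.RSZ.narrow_lin`)
is applied to the terms of a Cunningham chain as functions of its starting point.
-/

namespace Pool.Agent.Results.MP_c183ae_nt.NarrowProgressions

open Finset Filter
open Pool.Agent.TH977.PW (N)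
open Pool.Agent.Y677.RSZ (InProg Outside)

/-- All prime factors of the first `k` terms of the chain `c 0 n, c 1 n, ...` starting at `n` are larger than
`n ^ (1 / r)`. -/
def R (c : ℕ → ℕ → ℕ) (k r : ℕ) : Set ℕ :=
  {n | ∀ j < k, ∀ p : ℕ, p.Prime → p ∣ c j n → (n : ℝ) ^ (1 / (r : ℝ)) < (p : ℝ)}

/-- The `n` of `R c k r` for which the first `k` terms have at most `r` prime factors. -/
def P (c : ℕ → ℕ → ℕ) (k r : ℕ) : Set ℕ :=
  {n | n ∈ R c k r ∧ ∀ j < k, (c j n).primeFactorsList.length ≤ r}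

/-- **Narrow progressions of starting points of Cunningham chains.**
Let `c j n` be the `j`-th term of the chain of the first kind `n, 2 n + 1, 4 n + 3, ...` starting at `n`
(`c j n = 2 ^ j (n + 1) - 1`) or of the second kind `n, 2 n - 1, 4 n - 3, ...` (`c j n = 2 ^ j (n - 1) + 1`), let
`k ≥ 1` be a length and `0 < θ ≤ 1`. For all large `r` the set `R c k r` contains the starting points of all chains of
`k` primes; for large `X` and `X ^ θ ≤ Y ≤ X` it contains at least `κ Y / log ^ k X` integers `n` in `(X, X + Y]` for which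
each of the `k` terms has at most `r` prime factors; for EVERY subset `A` of `R c k r` all but at most
`ε Y / log ^ k X` elements of `A` in `(X, X + Y]` are terms of `l`-term arithmetic progressions contained in `A`
with difference at most `(log X) ^ B`; and there are such progressions of chains of `k` almost primes. -/
theorem result (c : ℕ → ℕ → ℕ)
    (hc : (∀ j n, c j n = 2 ^ j * (n + 1) - 1) ∨ (∀ j n, c j n = 2 ^ j * (n - 1) + 1))
    (k : ℕ) (hk : 1 ≤ k) (θ : ℝ) (hθ : 0 < θ) (hθ1 : θ ≤ 1) :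
    ∃ r₀ : ℕ, 2 ≤ r₀ ∧ ∀ r : ℕ, r₀ ≤ r →
      (∀ n : ℕ, (∀ j < k, (c j n).Prime) → n ∈ R c k r) ∧
      (∃ κ : ℝ, 0 < κ ∧ ∀ᶠ X : ℕ in atTop, ∀ Y : ℕ, (X : ℝ) ^ θ ≤ Y → Y ≤ X →
        κ * Y / Real.log X ^ k ≤
          N (P c k r) X (X + Y)) ∧
      (∀ l : ℕ, 2 ≤ l → ∀ ε : ℝ, 0 < ε → ∃ B : ℕ, ∀ᶠ X : ℕ in atTop, ∀ Y : ℕ,
        (X : ℝ) ^ θ ≤ Y → Y ≤ X → ∀ A : Set ℕ, A ⊆ R c k r →
          (N (Outside A l (Real.log X ^ B) X (X + Y)) X (X + Y) : ℝ) ≤ ε * Y / Real.log X ^ k) ∧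
      ∀ l : ℕ, ∃ B : ℕ, ∀ᶠ X : ℕ in atTop, ∀ Y : ℕ, (X : ℝ) ^ θ ≤ Y → Y ≤ X →
        ∃ u d : ℕ, 1 ≤ d ∧ (d : ℝ) ≤ Real.log X ^ B ∧
          ∀ i < l, u + i * d ∈ P c k r ∧ X < u + i * d ∧ u + i * d ≤ X + Y := by
  classical
  obtain ⟨e, he, hce⟩ : ∃ e : ℤ, (e = 1 ∨ e = -1) ∧
      ∀ (j n : ℕ), 0 < n → ((c j n : ℕ) : ℤ) = 2 ^ j * (n : ℤ) + e * (2 ^ j - 1) := by
    rcases hc with hc | hc
    · refine ⟨1, Or.inl rfl, fun j n hn => ?_⟩
      rw [hc]
      have h1 : 1 ≤ 2 ^ j * (n + 1) := Nat.one_le_iff_ne_zero.2 (by positivity)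
      rw [Nat.cast_sub h1]
      push_cast
      ring
    · refine ⟨-1, Or.inr rfl, fun j n hn => ?_⟩
      rw [hc]
      push_cast [Nat.cast_sub (Nat.succ_le_of_lt hn)]
      ring
  have hee : e * e = 1 := by rcases he with rfl | rfl <;> norm_num
  have hnat : ∀ (j n : ℕ), 0 < n → ((((2 ^ j : ℕ) : ℕ) : ℤ) * (n : ℤ) + e * (2 ^ j - 1)).natAbs = c j n := by
    intro j n hn
    push_cast
    rw [← hce j n hn, Int.natAbs_natCast]
  have hdvd : ∀ (j n p : ℕ), 0 < n → ((p : ℤ) ∣ (((2 ^ j : ℕ) : ℕ) : ℤ) * (n : ℤ) + e * (2 ^ j - 1) ↔ p ∣ c j n) := by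
    intro j n p hn
    push_cast
    rw [← hce j n hn]
    exact Int.natCast_dvd_natCast
  have hc0 : ∀ n : ℕ, 0 < n → c 0 n = n := by
    intro n hn
    rcases hc with hc | hc
    · rw [hc]; omega
    · rw [hc]; omega
  have : Nonempty (Fin k) := ⟨⟨0, hk⟩⟩
  have hzero : ∀ r : ℕ, 2 ≤ r → ∀ p : ℕ, p.Prime → ((0 : ℕ) : ℝ) ^ (1 / (r : ℝ)) < (p : ℝ) := by
    intro r hr p hp
    have hr0 : (0 : ℝ) < r := by exact_mod_cast (by omega : 0 < r)
    rw [Nat.cast_zero, Real.zero_rpow (by positivity)]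
    exact_mod_cast hp.pos
  obtain ⟨r₀, hr₀, H⟩ := Pool.Agent.Y677.RSZ.narrow_lin (ι := Fin k) (fun i => 2 ^ (i : ℕ))
    (fun i => e * (2 ^ (i : ℕ) - 1)) (fun _ => by positivity)
    (fun i => ⟨1, -e, by push_cast; linear_combination (1 - 2 ^ (i : ℕ)) * hee⟩)
    (fun i j hij _ => Fin.ext (Nat.pow_right_injective le_rfl hij))
    (by
      intro p hp
      rcases he with rfl | rfl
      · refine ⟨p - 1, fun i hd => ?_⟩
        have h1 : (((2 ^ (i : ℕ) : ℕ) : ℕ) : ℤ) * ((p - 1 : ℕ) : ℤ) + 1 * (2 ^ (i : ℕ) - 1) =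
            (2 : ℤ) ^ (i : ℕ) * p + (-1) := by
          rw [Nat.cast_sub hp.one_le]
          push_cast
          ring
        rw [h1] at hd
        have h2 : (p : ℤ) ∣ -1 := (dvd_add_right (dvd_mul_left _ _)).1 hd
        have h3 : p ∣ 1 := by exact_mod_cast (dvd_neg.1 h2 : (p : ℤ) ∣ 1)
        exact hp.one_lt.ne' (Nat.dvd_one.1 h3)
      · refine ⟨1, fun i hd => ?_⟩
        have h1 : (((2 ^ (i : ℕ) : ℕ) : ℕ) : ℤ) * ((1 : ℕ) : ℤ) + (-1) * (2 ^ (i : ℕ) - 1) = 1 := by
          push_cast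
          ring
        rw [h1] at hd
        have h3 : p ∣ 1 := by exact_mod_cast hd
        exact hp.one_lt.ne' (Nat.dvd_one.1 h3))
    (fun r => R c k r)
    (fun r => P c k r) k (Fintype.card_fin k)
    (by
      intro r m hr hm i p hp hd
      rcases Nat.eq_zero_or_pos m with rfl | hm0
      · exact hzero r hr p hp
      · exact hm i i.2 p hp ((hdvd i m p hm0).1 hd))
    (by
      intro r m hr h1 h2
      rcases Nat.eq_zero_or_pos m with rfl | hm0
      · refine ⟨fun j _ p hp _ => hzero r hr p hp, fun j hj => ?_⟩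
        rcases hc with hc | hc
        · have h3 := h2 ⟨j, hj⟩
          have h4 : ((((2 ^ j : ℕ) : ℕ) : ℤ) * ((0 : ℕ) : ℤ) + e * (2 ^ j - 1)).natAbs = c j 0 := by
            rw [hc, Nat.cast_zero, mul_zero, zero_add, Int.natAbs_mul]
            have h5 : e.natAbs = 1 := by rcases he with rfl | rfl <;> rfl
            rw [h5, one_mul, zero_add, mul_one]
            have h6 : ((2 : ℤ) ^ j - 1) = ((2 ^ j - 1 : ℕ) : ℤ) := by
              rw [Nat.cast_sub Nat.one_le_two_pow]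
              push_cast
              ring
            rw [h6, Int.natAbs_natCast]
          simp only at h3
          rw [h4] at h3
          exact h3
        · rw [hc]
          simp
      · refine ⟨fun j hj p hp hd => h1 ⟨j, hj⟩ p hp ((hdvd j m p hm0).2 hd), fun j hj => ?_⟩
        have h3 := h2 ⟨j, hj⟩
        simp only at h3
        rw [hnat j m hm0] at h3
        exact h3)
    θ hθ hθ1
  refine ⟨r₀, hr₀, fun r hr => ⟨?_, (H r hr).1, (H r hr).2,
    Pool.Agent.Y677.RSZ.exists_prog (fun _ hm => hm.1) (k) (H r hr).1 (H r hr).2⟩⟩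
  intro n hn j hj p hp hd
  have h2r : 2 ≤ r := hr₀.trans hr
  rcases Nat.eq_zero_or_pos n with rfl | hn0
  · exact hzero r h2r p hp
  · have hnp : n.Prime := by
      have := hn 0 hk
      rwa [hc0 n hn0] at this
    have hle : n ≤ c j n := by
      rcases hc with hc | hc
      · rw [hc]
        have h1 : 1 ≤ 2 ^ j := Nat.one_le_two_pow
        have h2 : n + 1 ≤ 2 ^ j * (n + 1) := by nlinarith
        omega
      · rw [hc]
        have h1 : 1 ≤ 2 ^ j := Nat.one_le_two_pow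
        have h2 : n - 1 ≤ 2 ^ j * (n - 1) := by nlinarith
        omega
    rw [(Nat.prime_dvd_prime_iff_eq hp (hn j hj)).1 hd]
    exact Pool.Agent.TH977.PW.rpow_lt_of_le r n (c j n) h2r hnp.two_le hle

end Pool.Agent.Results.MP_c183ae_nt.NarrowProgressions
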